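import Pool.Agent.H71.CW.Wid

/-!
Module WGR (MP_5607ba_lc, classes of bounded clique-width): finitely many representatives.
-/

set_option autoImplicit false

open Set

namespace Pool.Agent.CW

theorem WGR.df_symm (c : ℕ → ℕ → ℕ) (D : Set ℕ) (x y : ℕ) : df c D x y = df c D y x := by
  unfold df
  ext z
  simp only [mem_setOf_eq, ne_comm]

theorem WGR.df_self (c : ℕ → ℕ → ℕ) (D : Set ℕ) (x : ℕ) : df c D x x = ∅ := by
  unfold df
  ext z
  simp

theorem pf_WGR : WGR := by
  classical
  rintro c N D hN ⟨m, hm⟩
  by_contra hcon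
  push Not at hcon
  have h1 : ∀ k : ℕ, ∃ Y : Finset ℕ, (∀ y ∈ Y, y ∈ D) ∧
      (∀ x ∈ Y, ∀ y ∈ Y, x ≠ y → df c D x y ∉ N) ∧ Y.card = k := by
    intro k
    induction k with
    | zero => exact ⟨∅, by simp, by simp, rfl⟩
    | succ k ih =>
      obtain ⟨Y, hY1, hY2, hY3⟩ := ih
      obtain ⟨x, hxD, hx⟩ := hcon Y.toList fun r hr => hY1 r (Finset.mem_toList.1 hr)
      have hxY : x ∉ Y := by
        intro h
        refine hx x (Finset.mem_toList.2 h) ?_
        rw [WGR.df_self]
        exact hN.fin ∅ finite_empty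
      refine ⟨insert x Y, ?_, ?_, ?_⟩
      · intro y hy
        rcases Finset.mem_insert.1 hy with rfl | hy
        · exact hxD
        · exact hY1 y hy
      · intro a ha b hb hab
        rcases Finset.mem_insert.1 ha with h | ha
        · rcases Finset.mem_insert.1 hb with h' | hb
          · exact absurd (h.trans h'.symm) hab
          · rw [h]
            exact hx b (Finset.mem_toList.2 hb)
        · rcases Finset.mem_insert.1 hb with h' | hb
          · rw [h', WGR.df_symm]
            exact hx a (Finset.mem_toList.2 ha)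
          · exact hY2 a ha b hb hab
      · rw [Finset.card_insert_of_notMem hxY, hY3]
  obtain ⟨Y, hY1, hY2, hY3⟩ := h1 (m + 1)
  have := hm Y hY1 hY2
  omega

end Pool.Agent.CW
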